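import Pool.Agent.Helper87.MC.Goals

/-!
# Packet EXPM: exponential moments
-/

namespace Pool.Agent.Helper39.MC

open Finset Pointwise Pool.Agent.Helper87.MC

open Classical in
theorem sum_rr {G : Type} [AddCommGroup G] [Fintype G] (D : Finset G) :
    ∑ w : G, rr D w = D.card * D.card := by
  unfold rr
  simp_rw [Finset.card_filter]
  rw [Finset.sum_comm]
  have : ∀ x ∈ D, ∑ w : G, (if x + w ∈ D then 1 else 0) = D.card := by
    intro x _
    have h := Equiv.sum_comp (Equiv.addLeft x) (fun y => if y ∈ D then (1 : ℕ) else 0)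
    simp only [Equiv.coe_addLeft] at h
    refine h.trans ?_
    simp
  rw [Finset.sum_congr rfl this]
  simp

open Classical in
theorem expM : GExpM := by
  intro G _ _ D t hk1 hlog hbig
  set k : ℕ := D.card with hk
  set n : ℕ := Fintype.card G with hn
  have hn1 : 1 ≤ n := Fintype.card_pos
  have hkR : (0 : ℝ) < k := by exact_mod_cast hk1
  have hnR : (0 : ℝ) < n := by exact_mod_cast hn1
  have hbigR : 1024 * (k : ℝ) ^ 2 ≤ n := by exact_mod_cast hbig
  set h : G → ℕ := fun w => if t * rr D w < k then rr D w else 0 with hh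
  set f : G → ℝ := fun w => (t / k : ℝ) * (h w : ℝ) with hf
  have hf0 : ∀ w, 0 ≤ f w := fun w => by positivity
  have hf1 : ∀ w, f w ≤ 1 := by
    intro w
    simp only [hf, hh]
    split_ifs with hc
    · have : (t : ℝ) * (rr D w : ℝ) ≤ k := by exact_mod_cast hc.le
      rw [div_mul_eq_mul_div, div_le_one hkR]
      exact this
    · simp
  have hsumh : (∑ w, (h w : ℝ)) ≤ (k : ℝ) * k := by
    have h1 : ∑ w, h w ≤ k * k := by
      rw [← sum_rr D]
      refine Finset.sum_le_sum fun w _ => ?_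
      simp only [hh]
      split_ifs
      · exact le_rfl
      · exact Nat.zero_le _
    exact_mod_cast h1
  have hsumf : ∑ w, f w ≤ t * k := by
    rw [hf, ← Finset.mul_sum]
    calc (t / k : ℝ) * ∑ w, (h w : ℝ) ≤ (t / k : ℝ) * (k * k) :=
          mul_le_mul_of_nonneg_left hsumh (by positivity)
      _ = t * k := by field_simp
  set B : ℝ := n / (4 * (k : ℝ) ^ 2) with hB
  have hB256 : 256 ≤ B := by
    rw [hB, le_div_iff₀ (by positivity)]
    linarith
  have hB0 : 0 < B := by linarith
  have hconv : ∀ w, B ^ f w ≤ 1 + f w * B := by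
    intro w
    have h1 := rpow_one_add_le_one_add_mul_self (s := B - 1) (by linarith) (hf0 w) (hf1 w)
    rw [add_sub_cancel] at h1
    have := hf0 w
    nlinarith
  -- the bound for a fixed `g`
  have hg : ∀ g : G, (((univ : Finset (Fin (4 * k) → G)).filter
      (fun ξ => k ≤ ∑ i, h (g - ξ i))).card : ℝ) ≤ (n : ℝ) ^ (4 * k) / (8 * n) := by
    intro g
    set Ag := (univ : Finset (Fin (4 * k) → G)).filter (fun ξ => k ≤ ∑ i, h (g - ξ i)) with hAg
    have h1 : (Ag.card : ℝ) * B ^ (t : ℝ) ≤ ∑ ξ : Fin (4 * k) → G, ∏ i, B ^ f (g - ξ i) := by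
      calc (Ag.card : ℝ) * B ^ (t : ℝ) = ∑ _ξ ∈ Ag, B ^ (t : ℝ) := by
            rw [Finset.sum_const, nsmul_eq_mul]
        _ ≤ ∑ ξ ∈ Ag, ∏ i, B ^ f (g - ξ i) := by
            refine Finset.sum_le_sum fun ξ hξ => ?_
            rw [← Real.rpow_sum_of_pos hB0]
            refine Real.rpow_le_rpow_of_exponent_le (by linarith) ?_
            have h2 : k ≤ ∑ i, h (g - ξ i) := (Finset.mem_filter.mp hξ).2
            have h3 : (k : ℝ) ≤ ∑ i, (h (g - ξ i) : ℝ) := by exact_mod_cast h2
            simp only [hf]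
            rw [← Finset.mul_sum]
            calc (t : ℝ) = (t / k : ℝ) * k := by field_simp
              _ ≤ _ := mul_le_mul_of_nonneg_left h3 (by positivity)
        _ ≤ _ := by
            refine Finset.sum_le_sum_of_subset_of_nonneg (Finset.subset_univ _) fun ξ _ _ => ?_
            exact Finset.prod_nonneg fun i _ => (Real.rpow_pos_of_pos hB0 _).le
    have h4 : ∑ ξ : Fin (4 * k) → G, ∏ i, B ^ f (g - ξ i) = (∑ w, B ^ f w) ^ (4 * k) := by
      rw [← Equiv.sum_comp (Equiv.subLeft g) fun w => B ^ f w, Fintype.sum_pow]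
      rfl
    have h5 : ∑ w, B ^ f w ≤ n * (1 + t / (4 * k)) := by
      calc ∑ w, B ^ f w ≤ ∑ w, (1 + f w * B) := Finset.sum_le_sum fun w _ => hconv w
        _ = n + (∑ w, f w) * B := by
            rw [Finset.sum_add_distrib, ← Finset.sum_mul]
            simp [hn]
        _ ≤ n + (t * k) * B := by
            have := mul_le_mul_of_nonneg_right hsumf hB0.le
            linarith
        _ = n * (1 + t / (4 * k)) := by
            rw [hB]
            field_simp
    have h6 : (∑ w, B ^ f w) ^ (4 * k) ≤ (n : ℝ) ^ (4 * k) * Real.exp t := by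
      have h60 : 0 ≤ ∑ w, B ^ f w := Finset.sum_nonneg fun w _ => (Real.rpow_pos_of_pos hB0 _).le
      calc (∑ w, B ^ f w) ^ (4 * k) ≤ (n * (1 + t / (4 * k)) : ℝ) ^ (4 * k) :=
            pow_le_pow_left₀ h60 h5 _
        _ = (n : ℝ) ^ (4 * k) * (1 + t / (4 * k) : ℝ) ^ (4 * k) := mul_pow _ _ _
        _ ≤ (n : ℝ) ^ (4 * k) * (Real.exp (t / (4 * k))) ^ (4 * k) := by
            refine mul_le_mul_of_nonneg_left (pow_le_pow_left₀ (by positivity) ?_ _) (by positivity)
            rw [add_comm]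
            exact Real.add_one_le_exp _
        _ = _ := by
            rw [← Real.exp_nat_mul]
            congr 2
            push_cast
            field_simp
    have h7 : (Ag.card : ℝ) * B ^ (t : ℝ) ≤ (n : ℝ) ^ (4 * k) * Real.exp t := by
      rw [h4] at h1
      exact h1.trans h6
    have h8 : Real.exp (2 * t) ≤ B ^ (t : ℝ) := by
      rw [mul_comm, Real.exp_mul, Real.rpow_natCast, ← Real.exp_one_rpow (t : ℝ)]
      rw [Real.rpow_natCast, ← Real.rpow_natCast, ← Real.rpow_natCast, ← Real.rpow_mul (by positivity)]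
      rw [mul_comm, Real.rpow_mul (by positivity)]
      refine Real.rpow_le_rpow (by positivity) ?_ (by positivity)
      have := Real.exp_one_lt_d9
      have h9 : Real.exp 1 ^ (2 : ℝ) = Real.exp 1 * Real.exp 1 := by
        rw [show (2 : ℝ) = ((2 : ℕ) : ℝ) by norm_num, Real.rpow_natCast, sq]
      rw [h9]
      have h10 := Real.exp_pos 1
      nlinarith
    have h11 : 8 * (n : ℝ) ≤ Real.exp t := by
      have := Real.exp_le_exp.mpr hlog
      rwa [Real.exp_log (by positivity)] at this
    have h12 : (Ag.card : ℝ) * Real.exp t ≤ (n : ℝ) ^ (4 * k) := by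
      have h13 : (Ag.card : ℝ) * Real.exp t * Real.exp t ≤ (n : ℝ) ^ (4 * k) * Real.exp t := by
        calc (Ag.card : ℝ) * Real.exp t * Real.exp t = (Ag.card : ℝ) * Real.exp (2 * t) := by
              rw [mul_assoc, ← Real.exp_add]
              congr 2
              ring
          _ ≤ (Ag.card : ℝ) * B ^ (t : ℝ) := mul_le_mul_of_nonneg_left h8 (Nat.cast_nonneg _)
          _ ≤ _ := h7
      exact le_of_mul_le_mul_right h13 (Real.exp_pos _)
    rw [le_div_iff₀ (by positivity)]
    calc (Ag.card : ℝ) * (8 * n) ≤ (Ag.card : ℝ) * Real.exp t :=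
          mul_le_mul_of_nonneg_left h11 (Nat.cast_nonneg _)
      _ ≤ _ := h12
  -- the union bound
  have hunion : (((univ : Finset (Fin (4 * k) → G)).filter
      (fun ξ => ∃ g : G, k ≤ ∑ i, h (g - ξ i))).card : ℝ) ≤ (n : ℝ) ^ (4 * k) / 8 := by
    have hsub : (univ : Finset (Fin (4 * k) → G)).filter (fun ξ => ∃ g : G, k ≤ ∑ i, h (g - ξ i)) ⊆
        (univ : Finset G).biUnion fun g =>
          (univ : Finset (Fin (4 * k) → G)).filter (fun ξ => k ≤ ∑ i, h (g - ξ i)) := by
      intro ξ hξ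
      obtain ⟨g, hg'⟩ := (Finset.mem_filter.mp hξ).2
      exact Finset.mem_biUnion.mpr ⟨g, Finset.mem_univ _, Finset.mem_filter.mpr
        ⟨Finset.mem_univ _, hg'⟩⟩
    have h1 := (Finset.card_le_card hsub).trans Finset.card_biUnion_le
    calc (((univ : Finset (Fin (4 * k) → G)).filter
          (fun ξ => ∃ g : G, k ≤ ∑ i, h (g - ξ i))).card : ℝ)
        ≤ ∑ g : G, (((univ : Finset (Fin (4 * k) → G)).filter
          (fun ξ => k ≤ ∑ i, h (g - ξ i))).card : ℝ) := by exact_mod_cast h1
      _ ≤ ∑ _g : G, (n : ℝ) ^ (4 * k) / (8 * n) := Finset.sum_le_sum fun g _ => hg g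
      _ = (n : ℝ) ^ (4 * k) / 8 := by
          rw [Finset.sum_const, nsmul_eq_mul, Finset.card_univ, ← hn]
          field_simp
  have hfinal : (((univ : Finset (Fin (4 * k) → G)).filter
      (fun ξ => ∃ g : G, k ≤ ∑ i, h (g - ξ i))).card : ℝ) * 8 ≤ (n : ℝ) ^ (4 * k) := by
    linarith
  exact_mod_cast hfinal

end Pool.Agent.Helper39.MC
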